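import Pool.Agent.QUD.StmtsV

/-!
Row TIE of squad QUD: assembly of the ties.
-/

set_option autoImplicit false

namespace Pool.Agent.QUD.H17

open Real

theorem tie (h1 : TimStmt) (h2 : TisStmt) (h3 : TitStmt) (h4 : TixStmt) (h5 : TibStmt) :
    TieStmt := by
  intro a b c a' b' c' L l1 l2 l3 l4 l1' l2' l3' l4' hL h h' har hper hamb
  have key : a = a' → ((b = b' ∧ c = c') ∨ (b = c' ∧ c = b')) →
      (a = a' ∧ b = b' ∧ c = c' ∧ l1 = l1' ∧ l2 = l2' ∧ l3 = l3' ∧ l4 = l4') ∨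
      (a = a' ∧ b = c' ∧ c = b' ∧ l1 = l2' ∧ l2 = l1' ∧ l3 = l4' ∧ l4 = l3') := by
    intro ha hbc
    rcases hbc with ⟨hb, hc⟩ | ⟨hb, hc⟩
    · left
      subst ha hb hc
      exact ⟨rfl, rfl, rfl, h2 a b c L l1 l2 l3 l4 l1' l2' l3' l4' h h'⟩
    · right
      have hm := h1 a' b' c' L l1' l2' l3' l4' h'
      subst ha hb hc
      exact ⟨rfl, rfl, rfl, h2 a b c L l1 l2 l3 l4 l2' l1' l4' l3' h hm⟩
  rcases hamb with ⟨ha, hbc⟩ | ⟨ha, k1, k2, k3, k4, k5⟩ | ⟨ha, k1, k2, k3, k4, k5, k6⟩ | hE | hE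
  · exact key ha hbc
  · refine key ha ?_
    subst ha
    exact h3 a b c b' c' L l1 l2 l3 l4 l1' l2' l3' l4' h h' har hper k1 k2 k3 k4 k5
  · refine key ha ?_
    subst ha
    exact h5 a b c b' c' L l1 l2 l3 l4 l1' l2' l3' l4' hL h h' har hper k1 k2 k3 k4 k5 k6
  · exact absurd hE (h4 a b c a' b' c' L l1 l2 l3 l4 l1' l2' l3' l4' h h' har hper)
  · exact absurd hE (h4 a' b' c' a b c L l1' l2' l3' l4' l1 l2 l3 l4 h' h har.symm hper.symm)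

end Pool.Agent.QUD.H17
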